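import Pool.Agent.GLE.StmtsC

/-!
# Squad GLE, row HAR: Dirichlet integral of a harmonic function times a cut off
-/

namespace Pool.Agent.GLE.H16

open Polynomial MeasureTheory Filter Topology

theorem zero_int (F : ℂ → ℝ) (hF : ContDiff ℝ 1 F) (hc : HasCompactSupport F) (v : ℂ) :
    Integrable (fun z => fderiv ℝ F z v) ∧ ∫ z, fderiv ℝ F z v = 0 := by
  have h0 : Continuous (fun z => fderiv ℝ F z v) :=
    (hF.continuous_fderiv one_ne_zero).clm_apply continuous_const
  have h1 : HasCompactSupport (fun z => fderiv ℝ F z v) := by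
    have := hc.fderiv ℝ
    exact this.comp_left (g := fun L : ℂ →L[ℝ] ℝ => L v) (by simp)
  have hI : Integrable (fun z => fderiv ℝ F z v) := h0.integrable_of_hasCompactSupport h1
  refine ⟨hI, ?_⟩
  have hd : Differentiable ℝ F := hF.differentiable one_ne_zero
  have h2 := integral_mul_fderiv_eq_neg_fderiv_mul_of_integrable (μ := (volume : Measure ℂ))
    (f := fun _ : ℂ => (1 : ℝ)) (g := F) (v := v) (by simp) (by simpa using hI)
    (by simpa using hF.continuous.integrable_of_hasCompactSupport hc)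
    (fun x _ => differentiableAt_const _) (fun x _ => hd x)
  simpa using h2

theorem dre (P : ℂ[X]) (z : ℂ) : HasFDerivAt (fun z : ℂ => (P.eval z).re)
    (Complex.reCLM.comp ((derivative P).eval z • (1 : ℂ →L[ℝ] ℂ))) z :=
  Complex.reCLM.hasFDerivAt.comp z (P.hasDerivAt z).complexToReal_fderiv

theorem dim (P : ℂ[X]) (z : ℂ) : HasFDerivAt (fun z : ℂ => (P.eval z).im)
    (Complex.imCLM.comp ((derivative P).eval z • (1 : ℂ →L[ℝ] ℂ))) z :=
  Complex.imCLM.hasFDerivAt.comp z (P.hasDerivAt z).complexToReal_fderiv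

theorem cP (P : ℂ[X]) : ContDiff ℝ 1 (fun z : ℂ => P.eval z) := by
  have h : ContDiff ℂ 1 (fun z : ℂ => P.eval z) := by
    have := P.contDiff_aeval (𝕜 := ℂ) (R := ℂ) 1
    simpa using this
  exact h.restrict_scalars ℝ

theorem har : HarStmt := by
  intro P Θ hΘ hc
  have hd : Differentiable ℝ Θ := hΘ.differentiable one_ne_zero
  have cre : ContDiff ℝ 1 (fun z : ℂ => (P.eval z).re) := Complex.reCLM.contDiff.comp (cP P)
  have cre' : ContDiff ℝ 1 (fun z : ℂ => ((derivative P).eval z).re) :=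
    Complex.reCLM.contDiff.comp (cP _)
  have cim' : ContDiff ℝ 1 (fun z : ℂ => ((derivative P).eval z).im) :=
    Complex.imCLM.contDiff.comp (cP _)
  set F1 : ℂ → ℝ := fun z => (P.eval z).re * ((derivative P).eval z).re * (Θ z * Θ z) with hF1
  set F2 : ℂ → ℝ := fun z => (P.eval z).re * ((derivative P).eval z).im * (Θ z * Θ z) with hF2
  have c1 : ContDiff ℝ 1 F1 := (cre.mul cre').mul (hΘ.mul hΘ)
  have c2 : ContDiff ℝ 1 F2 := (cre.mul cim').mul (hΘ.mul hΘ)
  have s1 : HasCompactSupport F1 := (hc.mul_right (f' := Θ)).mul_left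
  have s2 : HasCompactSupport F2 := (hc.mul_right (f' := Θ)).mul_left
  obtain ⟨i1, z1⟩ := zero_int F1 c1 s1 1
  obtain ⟨i2, z2⟩ := zero_int F2 c2 s2 Complex.I
  have key : ∀ z, ‖grad (fun z => (P.eval z).re * Θ z) z‖ ^ 2 =
      (P.eval z).re ^ 2 * ‖grad Θ z‖ ^ 2 + (fderiv ℝ F1 z 1 - fderiv ℝ F2 z Complex.I) := by
    intro z
    have dΘ := (hd z).hasFDerivAt
    have e1 := ((dre P z).mul dΘ).fderiv
    have e2 := (((dre P z).mul (dre (derivative P) z)).mul (dΘ.mul dΘ)).fderiv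
    have e3 := (((dre P z).mul (dim (derivative P) z)).mul (dΘ.mul dΘ)).fderiv
    rw [← Complex.normSq_eq_norm_sq, ← Complex.normSq_eq_norm_sq, Complex.normSq_apply,
      Complex.normSq_apply]
    simp only [grad]
    erw [e1]
    rw [hF1, hF2]
    erw [e2, e3]
    simp
    ring
  have hg : Integrable (fun z => (P.eval z).re ^ 2 * ‖grad Θ z‖ ^ 2) := by
    have h0 : Continuous (fun z => fderiv ℝ Θ z) := hΘ.continuous_fderiv one_ne_zero
    have cg : Continuous (fun z => (P.eval z).re ^ 2 * ‖grad Θ z‖ ^ 2) := by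
      refine (cre.continuous.pow 2).mul (Continuous.pow (Continuous.norm ?_) 2)
      have : grad Θ = fun z => ((fderiv ℝ Θ z 1 : ℝ) : ℂ) +
          ((fderiv ℝ Θ z Complex.I : ℝ) : ℂ) * Complex.I := by
        funext z
        apply Complex.ext <;> simp [grad]
      rw [this]
      exact (Complex.continuous_ofReal.comp (h0.clm_apply continuous_const)).add
        ((Complex.continuous_ofReal.comp (h0.clm_apply continuous_const)).mul continuous_const)
    refine cg.integrable_of_hasCompactSupport ?_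
    have hs : HasCompactSupport (fun z => ‖grad Θ z‖ ^ 2) := by
      refine (hc.fderiv ℝ).comp_left
        (g := fun L : ℂ →L[ℝ] ℝ => ‖(⟨L 1, L Complex.I⟩ : ℂ)‖ ^ 2) ?_
      have : (⟨(0 : ℂ →L[ℝ] ℝ) 1, (0 : ℂ →L[ℝ] ℝ) Complex.I⟩ : ℂ) = 0 := by
        apply Complex.ext <;> simp
      show ‖(⟨(0 : ℂ →L[ℝ] ℝ) 1, (0 : ℂ →L[ℝ] ℝ) Complex.I⟩ : ℂ)‖ ^ 2 = 0
      rw [this]
      simp
    exact hs.mul_left
  calc ∫ z, ‖grad (fun z => (P.eval z).re * Θ z) z‖ ^ 2
      = ∫ z, ((P.eval z).re ^ 2 * ‖grad Θ z‖ ^ 2 +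
        (fderiv ℝ F1 z 1 - fderiv ℝ F2 z Complex.I)) := by
        refine integral_congr_ae (Eventually.of_forall fun z => key z)
    _ = ∫ z, (P.eval z).re ^ 2 * ‖grad Θ z‖ ^ 2 := by
        have i3 : Integrable (fun z => fderiv ℝ F1 z 1 - fderiv ℝ F2 z Complex.I) := i1.sub i2
        rw [integral_add hg i3, integral_sub i1 i2, z1, z2]
        simp

end Pool.Agent.GLE.H16
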